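import Mathlib
import Pool.Agent.P.MP_997199_an.Defs
import Pool.Agent.P.MP_997199_an.Concrete

namespace Pool.Agent.Results.MP_997199_an.NotEquivalent

open Pool.Agent.P.MP_997199_an
open scoped ENNReal

universe u

/-- A Banach space with the reciprocal Dunford-Pettis property on whose dual the two measures of
Mackey noncompactness are not equivalent. -/
theorem result (𝕜 : Type) [RCLike 𝕜] :
    ∃ (X : Type) (_ : NormedAddCommGroup X) (_ : NormedSpace 𝕜 X) (_ : CompleteSpace X),
      RDPP.{u} 𝕜 X ∧
        ∀ n : ℕ, ∃ A : Set (StrongDual 𝕜 X), A.Nonempty ∧ Bornology.IsBounded A ∧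
          (n : ℝ≥0∞) * chiM 𝕜 A < omegaM 𝕜 A :=
  counterexample 𝕜

end Pool.Agent.Results.MP_997199_an.NotEquivalent
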